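import Pool.Agent.Q264.GM.Fin
import Pool.Agent.Q264.GM.Mills
import Pool.Agent.Q182.GM.EHRC
import Pool.Agent.Q182.GM.EHR
import Pool.Agent.Q182.GM.LC
import Pool.Agent.Q164.GM.GAIN
import Pool.Agent.Q164.GM.TR
import Pool.Agent.Q153.GM.TAIL
import Pool.Agent.Q153.GM.LOSS
import Pool.Agent.Q153.GM.CORE
import Pool.Agent.PZ871.Gdens

/-!
# MP_681294_gt: the Gaussian measure does not decrease under the modified Banaszczyk transform

Answer to Q1: yes.  There is a strictly increasing `r : (0,1) → (0,∞)` such that `γ_n (K ∘ u) ≥ γ_n (K)` for all `n ≥ 2`,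
all closed convex `K` with `0 < γ_n (K) < 1` and all `|u| ≤ r (γ_n (K))`.

Sketch of the proof.  Let `g y` be the Gaussian measure of the section `I_y`, `y ∈ u^⊥`, and
`G s = γ {y | g y ≥ Φ(s)}`.  By Ehrhard's inequality for intervals of the line (proved here from the monotonicity of
`φ(x) / (x Φ(-x))`) and the Prékopa-Leindler inequality, `G` is log-concave.  Let `Φ(-t) = γ₁ [-|u|, |u|]`.  The loss
`∫_{g < Φ(-t)} g` is `∫_{s < -t} (G s - G (-t)) dγ₁(s)` and by log-concavity of `G` it is at most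
`C |u| (G (-κ-1) - G (-κ)) / t`, where `Φ(-κ) = γ_n (K) / 4`.  The gain on the set `Φ(-κ-1) ≤ g < Φ(-κ)` is at least
`c |u| (G (-κ-1) - G (-κ))`.  So the loss is at most the gain if `t` is large, i.e. if `|u|` is small.
-/

set_option autoImplicit false

open MeasureTheory ProbabilityTheory Set
open scoped InnerProductSpace ENNReal

namespace Pool.Agent.Results.MP_681294_gt.TransformMonotone

/-- `ℝⁿ` with the Euclidean norm -/
abbrev E (n : ℕ) := EuclideanSpace ℝ (Fin n)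

/-- the standard Gaussian measure `γ_n` of `ℝⁿ`, with density `(2π)^(-n/2) exp(-|x|²/2)` -/
noncomputable def gauss (n : ℕ) : Measure (E n) :=
  volume.withDensity fun x =>
    ENNReal.ofReal ((2 * Real.pi) ^ (-(n : ℝ) / 2) * Real.exp (-‖x‖ ^ 2 / 2))

/-- the standard Gaussian measure `γ₁` of the line, with density `(2π)^(-1/2) exp(-s²/2)` -/
noncomputable def gauss1 : Measure ℝ :=
  volume.withDensity fun s =>
    ENNReal.ofReal ((√(2 * Real.pi))⁻¹ * Real.exp (-s ^ 2 / 2))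

/-- `I_y`: the section of `K` by the line `y + ℝ u`, as a subset of `ℝ` via `s ↦ y + s u / |u|` -/
def sect {n : ℕ} (K : Set (E n)) (u y : E n) : Set ℝ := {s | y + (s / ‖u‖) • u ∈ K}

/-- `Z_K(u)`: the `y` orthogonal to `u` with `γ₁ (I_y) ≥ γ₁ [-|u|, |u|]` -/
def ZK {n : ℕ} (K : Set (E n)) (u : E n) : Set (E n) :=
  {y | ⟪y, u⟫_ℝ = 0 ∧ gauss1 (Icc (-‖u‖) ‖u‖) ≤ gauss1 (sect K u y)}

open Classical in
/-- `K ∘ u`, which is `(K + [-u,u]) ∩ (Z_K(u) + ℝu)` for `u ≠ 0` and `K` for `u = 0` -/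
noncomputable def transform {n : ℕ} (K : Set (E n)) (u : E n) : Set (E n) :=
  if u = 0 then K else
    {x | ∃ k ∈ K, ∃ τ ∈ Icc (-1 : ℝ) 1, x = k + τ • u} ∩
      {x | ∃ y ∈ ZK K u, ∃ s : ℝ, x = y + s • u}

theorem gauss_eq (n : ℕ) : stdGaussian (E n) = gauss n := Pool.Agent.PZ871.M_gdens.gdens n

theorem gauss1_eq : gaussianReal 0 1 = gauss1 := by
  unfold gauss1
  rw [gaussianReal_of_var_ne_zero 0 one_ne_zero]
  congr 1
  funext s
  rw [gaussianPDF, gaussianPDFReal]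
  congr 2
  · simp
  · simp

theorem transform_eq {n : ℕ} (K : Set (E n)) (u : E n) :
    Pool.Agent.Q264.GM.circ K u = transform K u := by
  unfold Pool.Agent.Q264.GM.circ transform
  have h : Pool.Agent.Q264.GM.Zset K u = ZK K u := by
    unfold Pool.Agent.Q264.GM.Zset ZK
    rw [← gauss1_eq]
    rfl
  rw [h]

theorem result : ∃ r : ℝ → ℝ, (∀ p ∈ Ioo (0 : ℝ) 1, 0 < r p) ∧ StrictMonoOn r (Ioo 0 1) ∧
    ∀ (n : ℕ), 2 ≤ n → ∀ K : Set (E n), Convex ℝ K → IsClosed K →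
      0 < gauss n K → gauss n K < 1 →
      ∀ u : E n, ‖u‖ ≤ r (gauss n K).toReal → gauss n K ≤ gauss n (transform K u) := by
  have hPHI := Pool.Agent.Q264.GM.t_PHI
  have hMILLS := Pool.Agent.Q264.GM.t_MILLS hPHI
  have hLEM := Pool.Agent.Q264.GM.t_LEM hPHI hMILLS
  have hQF := Pool.Agent.Q264.GM.t_QF hPHI hLEM
  have hEHRC := Pool.Agent.Q182.GM.t_EHRC hPHI hQF
  have hEHR := Pool.Agent.Q182.GM.t_EHR hPHI hEHRC
  have hLC := Pool.Agent.Q182.GM.t_LC hPHI hEHR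
  have hGAIN := Pool.Agent.Q164.GM.t_GAIN hPHI
  have hTAIL := Pool.Agent.Q153.GM.t_TAIL hPHI hMILLS
  have hLOSS := Pool.Agent.Q153.GM.t_LOSS hPHI hTAIL
  have hDIFF := Pool.Agent.Q264.GM.t_DIFF
  have hCORE := Pool.Agent.Q153.GM.t_CORE hPHI hLC hGAIN hLOSS hDIFF
  have hRHO := Pool.Agent.Q264.GM.t_RHO hPHI hCORE
  obtain ⟨r, h1, h2, h3⟩ := Pool.Agent.Q264.GM.t_FIN hRHO Pool.Agent.Q164.GM.t_TR
    Pool.Agent.Q164.GM.t_PULL
  refine ⟨r, h1, h2, fun n hn K hKc hKl h0 h1 u hu => ?_⟩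
  rw [← gauss_eq] at h0 h1 hu ⊢
  rw [← transform_eq]
  exact h3 n hn K hKc hKl h0 h1 u hu

end Pool.Agent.Results.MP_681294_gt.TransformMonotone
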